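import Pool.Agent.Helper68.SG.Ctx

/-! Part B2: choice of shifts, levels. -/

set_option autoImplicit false

namespace Pool.Agent.Helper51.SG

open Pool.Agent.Helper68.SG

lemma card_bad_one (Q c L : ℕ) :
    ((Finset.range L).filter (fun t => Q ∣ t + c)).card ≤ L / Q + 1 := by
  have h : ((Finset.range L).filter (fun t => Q ∣ t + c)).card ≤ (Finset.range (L / Q + 1)).card := by
    apply Finset.card_le_card_of_injOn (fun t => t / Q)
    · intro t ht
      simp only [Finset.coe_filter, Finset.mem_range, Set.mem_ofPred_eq] at ht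
      simp only [Finset.coe_range, Set.mem_Iio]
      have := Nat.div_le_div_right (c := Q) ht.1.le
      omega
    · intro t ht t' ht' he
      simp only [Finset.coe_filter, Finset.mem_range, Set.mem_ofPred_eq] at ht ht'
      have he' : t / Q = t' / Q := he
      have h1 : t ≡ t' [MOD Q] := by
        apply Nat.ModEq.add_right_cancel' c
        exact (Nat.modEq_zero_iff_dvd.2 ht.2).trans (Nat.modEq_zero_iff_dvd.2 ht'.2).symm
      have h2 : t % Q = t' % Q := h1
      rw [← Nat.div_add_mod t Q, ← Nat.div_add_mod t' Q, he', h2]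
  simpa using h

theorem chooseW {ι : Type} (I : Finset ι) (c Q γ : ι → ℕ) (L : ℕ) (hL : 0 < L)
    (hQ : ∀ k ∈ I, 0 < Q k) (h : ∀ k ∈ I, I.card * (γ k * (L / Q k + 1)) < L) :
    ∃ t < L, ∀ k ∈ I, ∀ g < γ k, ¬ Q k ∣ t + c k + g := by
  classical
  by_contra hcon
  push Not at hcon
  have hsub : Finset.range L ⊆ I.biUnion (fun k => (Finset.range (γ k)).biUnion
      (fun g => (Finset.range L).filter (fun t => Q k ∣ t + (c k + g)))) := by
    intro t ht
    obtain ⟨k, hk, g, hg, hd⟩ := hcon t (Finset.mem_range.1 ht)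
    rw [Finset.mem_biUnion]
    refine ⟨k, hk, ?_⟩
    rw [Finset.mem_biUnion]
    refine ⟨g, Finset.mem_range.2 hg, ?_⟩
    rw [Finset.mem_filter]
    exact ⟨ht, by rwa [← Nat.add_assoc]⟩
  have h1 : L ≤ ∑ k ∈ I, γ k * (L / Q k + 1) := by
    calc L = (Finset.range L).card := by simp
      _ ≤ _ := Finset.card_le_card hsub
      _ ≤ ∑ k ∈ I, ((Finset.range (γ k)).biUnion
          (fun g => (Finset.range L).filter (fun t => Q k ∣ t + (c k + g)))).card :=
        Finset.card_biUnion_le
      _ ≤ ∑ k ∈ I, γ k * (L / Q k + 1) := by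
        apply Finset.sum_le_sum
        intro k _
        calc _ ≤ ∑ g ∈ Finset.range (γ k),
            ((Finset.range L).filter (fun t => Q k ∣ t + (c k + g))).card :=
              Finset.card_biUnion_le
          _ ≤ ∑ g ∈ Finset.range (γ k), (L / Q k + 1) :=
              Finset.sum_le_sum (fun g _ => card_bad_one _ _ _)
          _ = γ k * (L / Q k + 1) := by simp
  rcases I.eq_empty_or_nonempty with rfl | hne
  · simp at h1
    omega
  · obtain ⟨k0, hk0, hmax⟩ := Finset.exists_max_image I (fun k => γ k * (L / Q k + 1)) hne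
    have h2 : ∑ k ∈ I, γ k * (L / Q k + 1) ≤ I.card * (γ k0 * (L / Q k0 + 1)) := by
      rw [← smul_eq_mul]
      exact Finset.sum_le_card_nsmul _ _ _ hmax
    have := h k0 hk0
    omega

theorem chooseI {ι : Type} (I : Finset ι) (c Q γ : ι → ℕ)
    (h : ∀ k ∈ I, 2 * I.card * γ k < Q k) :
    ∃ t, 0 < t ∧ ∀ k ∈ I, ∀ g < γ k, ¬ Q k ∣ t + c k + g := by
  classical
  have hQ : ∀ k ∈ I, 0 < Q k := fun k hk => lt_of_le_of_lt (Nat.zero_le _) (h k hk)
  obtain ⟨t, -, ht⟩ := chooseW I (fun k => c k + 1) Q γ (1 + ∑ k ∈ I, Q k) (by omega) hQ (by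
    intro k hk
    have hle : Q k ≤ ∑ k ∈ I, Q k :=
      Finset.single_le_sum (f := Q) (fun x _ => Nat.zero_le _) hk
    set L := 1 + ∑ k ∈ I, Q k with hL
    have h1 : 1 ≤ L / Q k := (Nat.one_le_div_iff (hQ k hk)).2 (by omega)
    have h2 : L / Q k + 1 ≤ 2 * (L / Q k) := by omega
    have h3 : Q k * (L / Q k) ≤ L := Nat.mul_div_le _ _
    calc I.card * (γ k * (L / Q k + 1)) ≤ I.card * (γ k * (2 * (L / Q k))) :=
          Nat.mul_le_mul_left _ (Nat.mul_le_mul_left _ h2)
      _ = (2 * I.card * γ k) * (L / Q k) := by ring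
      _ < Q k * (L / Q k) := Nat.mul_lt_mul_of_pos_right (h k hk) h1
      _ ≤ L := h3)
  refine ⟨t + 1, by omega, fun k hk g hg => ?_⟩
  have h1 := ht k hk g hg
  have h2 : t + (c k + 1) + g = t + 1 + c k + g := by omega
  rwa [h2] at h1

section params

variable {p : Par}

lemma r_ge' (hp : p.Ok) : 16 ≤ p.r := by
  have h1 := hp.r_ge
  have h2 := hp.n_pos
  omega

lemma rpow_pos (hp : p.Ok) (i : ℕ) : 0 < p.r ^ i := by
  have := r_ge' hp
  positivity

lemma wid_zero : p.wid 0 = 1 := by simp [Par.wid]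

lemma wid_succ (i : ℕ) : p.wid (i + 1) = 2 * p.r ^ (i + 1) := by simp [Par.wid]

lemma wid_le (hp : p.Ok) (i : ℕ) : p.wid i ≤ 2 * p.r ^ i := by
  unfold Par.wid
  split_ifs with h
  · have := rpow_pos hp i
    omega
  · exact le_rfl

lemma rpow_mono (hp : p.Ok) {i j : ℕ} (h : i ≤ j) : p.r ^ i ≤ p.r ^ j :=
  Nat.pow_le_pow_right (by have := r_ge' hp; omega) h

lemma wid_mono (hp : p.Ok) {i j : ℕ} (h : i ≤ j) : p.wid i ≤ p.wid j := by
  rcases Nat.eq_zero_or_pos j with rfl | hj
  · have : i = 0 := by omega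
    subst this
    exact le_rfl
  · obtain ⟨j', rfl⟩ : ∃ j', j = j' + 1 := ⟨j - 1, by omega⟩
    rw [wid_succ]
    have h1 := wid_le hp i
    have h2 := rpow_mono hp h
    omega

lemma e_mono (hp : p.Ok) {i j : ℕ} (h : i ≤ j) : p.e i ≤ p.e j := by
  obtain ⟨d, rfl⟩ := Nat.exists_eq_add_of_le h
  clear h
  induction d with
  | zero => exact le_rfl
  | succ d ih =>
    refine ih.trans ?_
    have h1 := hp.P_succ (i + d)
    have h2 := hp.n_pos
    unfold Par.P at h1
    have h3 : 2 ^ p.e (i + d) ≤ 2 ^ p.e (i + d + 1) := by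
      refine le_trans ?_ h1
      exact Nat.le_mul_of_pos_left _ (by omega)
    exact (Nat.pow_le_pow_iff_right (by norm_num : 1 < 2)).1 h3

lemma P_dvd (hp : p.Ok) {i j : ℕ} (h : i ≤ j) : p.P i ∣ p.P j := pow_dvd_pow 2 (e_mono hp h)

lemma P_pos (i : ℕ) : 0 < p.P i := by
  unfold Par.P
  positivity

lemma P_le (hp : p.Ok) {i j : ℕ} (h : i ≤ j) : p.P i ≤ p.P j :=
  Nat.le_of_dvd (P_pos j) (P_dvd hp h)

lemma nu_big (hp : p.Ok) (L : ℕ) : 32 * p.r ^ (L + 1) ≤ p.nu L := by
  refine le_trans ?_ (hp.nu_ge L)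
  have h1 : 1 ≤ p.n ^ 2 := Nat.one_le_pow _ _ hp.n_pos
  nlinarith [rpow_pos hp (L + 1)]

lemma P_big (hp : p.Ok) (L : ℕ) : 1024 * p.n * (32 * p.r ^ (L + 1)) ≤ p.P L :=
  le_trans (Nat.mul_le_mul_left _ (nu_big hp L)) (hp.P_ge L)

lemma Lam_le (hp : p.Ok) {i L : ℕ} (h : i ≤ L) : Lam p i ≤ p.r ^ (L + 1) := by
  unfold Lam
  split_ifs with h0
  · exact rpow_pos hp _
  · have h1 := hp.r_ge
    have h2 := rpow_mono hp h
    calc 16 * p.n * p.r ^ i ≤ p.r * p.r ^ L := Nat.mul_le_mul h1 h2
      _ = p.r ^ (L + 1) := by rw [pow_succ, mul_comm]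

lemma Lam_pos (hp : p.Ok) (i : ℕ) : 0 < Lam p i := by
  unfold Lam
  split_ifs with h0
  · omega
  · have h1 := rpow_pos hp i
    have h2 := hp.n_pos
    positivity

end params

theorem lv_spec {p : Par} (hp : p.Ok) {N : ℕ} (hN : 1 ≤ N) :
    p.wid (lv p N) ≤ N ∧ N < p.wid (lv p N + 1) := by
  constructor
  · exact Nat.findGreatest_spec (P := fun l => p.wid l ≤ N) (m := 0) (Nat.zero_le _)
      (by rw [wid_zero]; exact hN)
  · rcases Nat.lt_or_ge N (lv p N + 1) with h | h
    · rw [wid_succ]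
      have h1 : lv p N + 1 < 2 ^ (lv p N + 1) := Nat.lt_two_pow_self
      have h2 : 2 ^ (lv p N + 1) ≤ p.r ^ (lv p N + 1) :=
        Nat.pow_le_pow_left (by have := r_ge' hp; omega) _
      omega
    · have := Nat.findGreatest_is_greatest (P := fun l => p.wid l ≤ N) (n := N)
        (k := lv p N + 1) (Nat.lt_succ_self _) h
      simpa using this

theorem know_of_wid {A : Type} {p : Par} {w : ℕ → A} {tau : ℕ → ℕ → ℕ → ℕ}
    {C : ℕ → ℕ → ℕ → Prop} (hp : p.Ok) (hG : Good p w tau C) {i a b L : ℕ}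
    (hL : p.wid i ≤ L) (h : Ag w a b L) : a ≡ b [MOD p.P i] := by
  induction i with
  | zero =>
    rw [wid_zero] at hL
    have h1 : p.len 0 = 1 := by simp [Par.len]
    refine hG.know 0 a b (by rw [h1]; exact one_dvd _) (by rw [h1]; exact one_dvd _)
      (hG.coreOf 0 a b (by rw [h1]; exact one_dvd _) (by rw [h1]; exact one_dvd _) ?_)
    intro t ht
    rw [h1] at ht
    exact h t (by omega)
  | succ i ih =>
    have hi := ih ((wid_mono hp (Nat.le_succ i)).trans hL)
    have hlen : 0 < p.len (i + 1) := rpow_pos hp _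
    have hmod : a ≡ b [MOD p.len (i + 1)] := hi.of_dvd (hp.len_succ_dvd i)
    obtain ⟨j, hj, hja⟩ : ∃ j < p.len (i + 1), p.len (i + 1) ∣ a + j := by
      refine ⟨(p.len (i + 1) - a % p.len (i + 1)) % p.len (i + 1), Nat.mod_lt _ hlen, ?_⟩
      have h1 : a % p.len (i + 1) < p.len (i + 1) := Nat.mod_lt _ hlen
      apply Nat.dvd_of_mod_eq_zero
      rw [Nat.add_mod, Nat.mod_mod, ← Nat.add_mod_mod, Nat.mod_mod] 
      have h2 : a % p.len (i + 1) + (p.len (i + 1) - a % p.len (i + 1)) = p.len (i + 1) := by omega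
      rw [Nat.add_mod_mod, h2, Nat.mod_self]
    have hjb : p.len (i + 1) ∣ b + j :=
      (Nat.ModEq.dvd_iff (hmod.add_right j) dvd_rfl).1 hja
    have hAg : Ag w (a + j) (b + j) (p.len (i + 1)) := by
      intro t ht
      have h1 := h (j + t) (by
        rw [wid_succ] at hL
        have : p.len (i + 1) = p.r ^ (i + 1) := rfl
        omega)
      rw [← Nat.add_assoc, ← Nat.add_assoc] at h1
      exact h1
    have h2 := hG.know (i + 1) _ _ hja hjb (hG.coreOf (i + 1) _ _ hja hjb hAg)
    exact Nat.ModEq.add_right_cancel' j h2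


/-- shift for the proof of `B4` -/
theorem exists_K4 {p : Par} (hp : p.Ok) {m : ℕ} (hm : m ≤ p.n) (u s nn : ℕ → ℕ)
    (hnn : ∀ x, 1 ≤ nn x) (i y : ℕ) (hy : Lam p i ≤ nn y) :
    ∃ K, 0 < K ∧ Val p m u s nn K ∧ (∃ j < nn y, 2 ^ em p i ∣ s y + K + j) ∧
      ∀ k < m, nn (u k) < p.wid i → ∀ j < nn (u k), ¬ 2 ^ em p i ∣ s (u k) + K + j := by
  classical
  have hn := hp.n_pos
  set M := 2 ^ Helper68.SG.em p i with hM
  have hMpos : 0 < M := by positivity
  set Λ := Lam p i with hΛ
  have hΛpos : 0 < Λ := Lam_pos hp i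
  -- facts on `M`
  have hMdvd : ∀ L, i ≤ L → M ∣ p.P L := by
    intro L hL
    rw [hM]
    unfold Helper68.SG.em
    split_ifs with h0
    · simp
    · exact P_dvd hp (i := i - 1) (j := L) (by omega)
  have hM2 : ∀ L, i ≤ L → 2 * p.n * M ≤ p.P L / 2 + 2 * p.n := by
    intro L hL
    rw [hM]
    unfold Helper68.SG.em
    split_ifs with h0
    · simp
    · obtain ⟨i', rfl⟩ : ∃ i', i = i' + 1 := ⟨i - 1, by omega⟩
      have h1 := hp.P_succ i'
      have h2 := P_le hp hL
      have h3 : 2 ^ p.e (i' + 1 - 1) = p.P i' := rfl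
      rw [h3]
      have h4 : 2 * (2 * p.n * p.P i') ≤ p.P L := by
        calc 2 * (2 * p.n * p.P i') = 4 * p.n * p.P i' := by ring
          _ ≤ p.P L := h1.trans h2
      omega
  have hsmallM : ∀ L, L < i → p.P L ∣ M := by
    intro L hL
    rw [hM]
    unfold Helper68.SG.em
    rw [if_neg (by omega)]
    exact P_dvd hp (i := L) (j := i - 1) (by omega)
  -- the level of `u k`
  set lev : ℕ → ℕ := fun k => lv p (nn (u k)) with hlev
  have hlev1 : ∀ k, p.wid (lev k) ≤ nn (u k) := fun k => (lv_spec hp (hnn _)).1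
  have hlev2 : ∀ k, nn (u k) < 2 * p.r ^ (lev k + 1) := by
    intro k
    have := (lv_spec hp (hnn (u k))).2
    rw [wid_succ] at this
    exact this
  set D := M * (s y + Λ + 1) - s y with hD
  have hD1 : s y + D = M * (s y + Λ + 1) := by
    have : s y ≤ M * (s y + Λ + 1) :=
      le_trans (by omega) (Nat.le_mul_of_pos_left (s y + Λ + 1) hMpos)
    omega
  have hD2 : Λ + 1 ≤ D := by
    have : s y + Λ + 1 ≤ M * (s y + Λ + 1) := Nat.le_mul_of_pos_left _ hMpos
    omega
  -- first choice
  obtain ⟨t, ht0, ht⟩ := chooseI ((Finset.range m).filter (fun k => i ≤ lev k))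
    (fun k => (s (u k) + D - Λ + M - 1) / M) (fun k => p.P (lev k) / M)
    (fun k => (Λ + nn (u k)) / M + 1) (by
      intro k hk
      rw [Finset.mem_filter] at hk
      have hL := hk.2
      have hcard : ((Finset.range m).filter (fun k => i ≤ lev k)).card ≤ p.n :=
        (Finset.card_filter_le _ _).trans (by simpa using hm)
      have h1 : 2 * p.n * ((Λ + nn (u k)) / M + 1) < p.P (lev k) / M := by
        rw [Nat.lt_div_iff_mul_lt' (hMdvd _ hL)]
        have h2 : M * (2 * p.n * ((Λ + nn (u k)) / M + 1)) ≤ 2 * p.n * (Λ + nn (u k)) + 2 * p.n * M := by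
          have : M * ((Λ + nn (u k)) / M) ≤ Λ + nn (u k) := Nat.mul_div_le _ _
          calc M * (2 * p.n * ((Λ + nn (u k)) / M + 1)) =
              2 * p.n * (M * ((Λ + nn (u k)) / M)) + 2 * p.n * M := by ring
            _ ≤ _ := Nat.add_le_add_right (Nat.mul_le_mul_left _ this) _
        have h3 := hM2 _ hL
        have h4 : Λ ≤ p.r ^ (lev k + 1) := Lam_le hp hL
        have h5 := hlev2 k
        have h6 := P_big hp (lev k)
        have h7 := rpow_pos hp (lev k + 1)
        have h8 : 2 * p.n * (Λ + nn (u k)) ≤ 2 * p.n * (3 * p.r ^ (lev k + 1)) :=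
          Nat.mul_le_mul_left _ (by omega)
        have h9 : 2 * p.n ≤ 2 * p.n * p.r ^ (lev k + 1) := Nat.le_mul_of_pos_right _ h7
        have h10 : 1024 * p.n * (32 * p.r ^ (lev k + 1)) = 32768 * (p.n * p.r ^ (lev k + 1)) := by ring
        have h11 : 2 * p.n * (3 * p.r ^ (lev k + 1)) = 6 * (p.n * p.r ^ (lev k + 1)) := by ring
        have h12 : 2 * p.n * p.r ^ (lev k + 1) = 2 * (p.n * p.r ^ (lev k + 1)) := by ring
        have h13 : 0 < p.n * p.r ^ (lev k + 1) := by positivity
        omega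
      refine lt_of_le_of_lt ?_ h1
      exact Nat.mul_le_mul_right _ (Nat.mul_le_mul_left _ hcard))
  -- second choice
  obtain ⟨t', ht'Λ, ht'⟩ := chooseW ((Finset.range m).filter (fun k => lev k < i))
    (fun k => s (u k) + t * M + D + 1 - Λ) (fun k => p.P (lev k))
    (fun k => nn (u k)) Λ hΛpos (fun k _ => P_pos _) (by
      intro k hk
      rw [Finset.mem_filter] at hk
      have hL := hk.2
      have hcard : ((Finset.range m).filter (fun k => lev k < i)).card ≤ p.n :=
        (Finset.card_filter_le _ _).trans (by simpa using hm)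
      have hΛ' : Λ = 16 * p.n * p.r ^ i := by
        rw [hΛ]
        unfold Lam
        rw [if_neg (by omega)]
      have h5 := hlev2 k
      have h6 := P_big hp (lev k)
      have h7 := rpow_pos hp (lev k + 1)
      have h8 := rpow_mono hp (i := lev k + 1) (j := i) hL
      have h9 : p.n * nn (u k) ≤ p.n * (2 * p.r ^ (lev k + 1)) := Nat.mul_le_mul_left _ h5.le
      have h10 : 1024 * p.n * (32 * p.r ^ (lev k + 1)) = 32768 * (p.n * p.r ^ (lev k + 1)) := by ring
      have h11 : p.n * (2 * p.r ^ (lev k + 1)) = 2 * (p.n * p.r ^ (lev k + 1)) := by ring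
      have h12 : p.n * p.r ^ (lev k + 1) ≤ p.n * p.r ^ i := Nat.mul_le_mul_left _ h8
      have h13 : 16 * p.n * p.r ^ i = 16 * (p.n * p.r ^ i) := by ring
      have hA : 8 * (p.n * nn (u k)) ≤ Λ := by omega
      have hB : 2 * (p.n * nn (u k)) ≤ p.P (lev k) := by omega
      have hC : 2 * (p.n * nn (u k)) * (Λ / p.P (lev k)) ≤ Λ :=
        (Nat.mul_le_mul_right _ hB).trans (Nat.mul_div_le _ _)
      have hE : p.n * (nn (u k) * (Λ / p.P (lev k) + 1)) < Λ := by
        have : 2 * (p.n * (nn (u k) * (Λ / p.P (lev k) + 1))) =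
          2 * (p.n * nn (u k)) * (Λ / p.P (lev k)) + 2 * (p.n * nn (u k)) := by ring
        omega
      exact lt_of_le_of_lt (Nat.mul_le_mul_right _ hcard) hE)
  -- the shift
  set j0 := Λ - 1 - t' with hj0
  have hj0Λ : j0 < Λ := by omega
  refine ⟨t * M + D - j0, by omega, ?_, ⟨j0, by omega, ?_⟩, ?_⟩
  · -- validity
    intro k hk j hj
    by_cases hL : i ≤ lev k
    · intro hdvd
      have hdvd' : p.P (lev k) ∣ s (u k) + (t * M + D - j0) + j := hdvd
      set E := s (u k) + D - Λ with hE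
      have e1 : s (u k) + (t * M + D - j0) + j = t * M + (E + (Λ - j0 + j)) := by omega
      rw [e1] at hdvd'
      have hMd : M ∣ E + (Λ - j0 + j) :=
        (Nat.dvd_add_right (Dvd.intro_left t rfl)).1 ((hMdvd _ hL).trans hdvd')
      obtain ⟨f, hf⟩ := hMd
      have hfE : E ≤ M * f := by omega
      have hceil : (E + M - 1) / M ≤ f := by
        have : E + M - 1 < M * (f + 1) := by
          rw [Nat.mul_add, Nat.mul_one]
          omega
        have h2 := (Nat.div_lt_iff_lt_mul hMpos).2 (by rwa [Nat.mul_comm] at this)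
        omega
      have hEle : E ≤ M * ((E + M - 1) / M) := by
        have h1 := Nat.div_add_mod (E + M - 1) M
        have h2 := Nat.mod_lt (E + M - 1) hMpos
        omega
      have hk' : k ∈ (Finset.range m).filter (fun k => i ≤ lev k) :=
        Finset.mem_filter.2 ⟨Finset.mem_range.2 hk, hL⟩
      apply ht k hk' (f - (E + M - 1) / M)
      · have h1 : M * (f - (E + M - 1) / M) ≤ Λ + nn (u k) := by
          rw [Nat.mul_sub]
          omega
        have h2 : f - (E + M - 1) / M ≤ (Λ + nn (u k)) / M :=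
          (Nat.le_div_iff_mul_le hMpos).2 (by rwa [Nat.mul_comm] at h1)
        show f - (E + M - 1) / M < (Λ + nn (u k)) / M + 1
        omega
      · have h1 : t + (E + M - 1) / M + (f - (E + M - 1) / M) = t + f := by omega
        show p.P (lev k) / M ∣ t + (E + M - 1) / M + (f - (E + M - 1) / M)
        rw [h1]
        rw [Nat.div_dvd_iff_dvd_mul (hMdvd _ hL) hMpos, Nat.mul_add, ← hf, Nat.mul_comm M t]
        exact hdvd'
    · push Not at hL
      have hk' : k ∈ (Finset.range m).filter (fun k => lev k < i) :=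
        Finset.mem_filter.2 ⟨Finset.mem_range.2 hk, hL⟩
      have h1 := ht' k hk' j hj
      have h2 : t' + (s (u k) + t * M + D + 1 - Λ) + j = s (u k) + (t * M + D - j0) + j := by omega
      intro h3
      apply h1
      show p.P (lev k) ∣ t' + (s (u k) + t * M + D + 1 - Λ) + j
      rw [h2]
      exact h3
  · have h1 : s y + (t * M + D - j0) + j0 = t * M + M * (s y + Λ + 1) := by omega
    show M ∣ s y + (t * M + D - j0) + j0
    rw [h1]
    exact Dvd.dvd.add (Dvd.intro_left t rfl) (Dvd.intro _ rfl)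
  · intro k hk hsm j hj hdvd
    have hL : lev k < i := by
      by_contra h
      push Not at h
      have h1 := wid_mono hp h
      have h2 := hlev1 k
      omega
    have hk' : k ∈ (Finset.range m).filter (fun k => lev k < i) :=
      Finset.mem_filter.2 ⟨Finset.mem_range.2 hk, hL⟩
    have h1 := ht' k hk' j hj
    have h2 : t' + (s (u k) + t * M + D + 1 - Λ) + j = s (u k) + (t * M + D - j0) + j := by omega
    apply h1
    show p.P (lev k) ∣ t' + (s (u k) + t * M + D + 1 - Λ) + j
    rw [h2]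
    exact (hsmallM _ hL).trans hdvd

/-- shift for `B5` -/
theorem exists_K5 {p : Par} (hp : p.Ok) {m : ℕ} (hm : m ≤ p.n) (u s nn : ℕ → ℕ)
    (hnn : ∀ x, 1 ≤ nn x) (i : ℕ) :
    ∃ K, 0 < K ∧ Val p m u s nn K ∧ ∀ z, p.P i ∣ z + K → FarB p m u s nn i (Rm p i) z := by
  classical
  have hn := hp.n_pos
  have hP := P_pos (p := p) i
  set R := Rm p i with hR
  have hRP : 6 * p.n * (2 * R) < p.P i := by
    have h1 := hp.P_ge i
    have h2 := nu_big hp i
    have h3 := wid_le hp i
    have h4 := rpow_mono hp (i := i) (j := i + 1) (Nat.le_succ i)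
    have h5 : R = 8 * p.nu i + 4 * p.wid i := rfl
    have h6 : p.wid i ≤ p.nu i := by omega
    have h7 : R ≤ 12 * p.nu i := by omega
    have h8 : 6 * p.n * (2 * R) ≤ 6 * p.n * (2 * (12 * p.nu i)) :=
      Nat.mul_le_mul_left _ (Nat.mul_le_mul_left _ h7)
    have h9 : 6 * p.n * (2 * (12 * p.nu i)) = 144 * (p.n * p.nu i) := by ring
    have h10 : 1024 * p.n * p.nu i = 1024 * (p.n * p.nu i) := by ring
    have h11 : 0 < p.nu i := by have := rpow_pos hp (i + 1); omega
    have h12 : 0 < p.n * p.nu i := by positivity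
    omega
  set lev : ℕ → ℕ := fun k => lv p (nn (u k)) with hlev
  have hlev2 : ∀ k, nn (u k) < 2 * p.r ^ (lev k + 1) := by
    intro k
    have := (lv_spec hp (hnn (u k))).2
    rw [wid_succ] at this
    exact this
  obtain ⟨K, hK0, hK⟩ := chooseI ((Finset.range m) ×ˢ (Finset.range 3))
    (fun x => if x.2 = 0 then s (u x.1) else if x.2 = 1 then s (u x.1) + (p.P i * R - R)
      else s (u x.1) + nn (u x.1) + (p.P i * R - R))
    (fun x => if x.2 = 0 then p.P (lev x.1) else p.P i)
    (fun x => if x.2 = 0 then nn (u x.1) else 2 * R) (by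
      rintro ⟨k, c⟩ hk
      rw [Finset.mem_product] at hk
      have hcard : 2 * ((Finset.range m) ×ˢ (Finset.range 3)).card ≤ 6 * p.n := by
        rw [Finset.card_product]
        simp
        omega
      by_cases hc : c = 0
      · subst hc
        simp only [if_true]
        refine lt_of_le_of_lt (Nat.mul_le_mul_right _ hcard) ?_
        have h5 := hlev2 k
        have h6 := P_big hp (lev k)
        have h7 := rpow_pos hp (lev k + 1)
        have h8 : 6 * p.n * nn (u k) ≤ 6 * p.n * (2 * p.r ^ (lev k + 1)) :=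
          Nat.mul_le_mul_left _ h5.le
        have h10 : 1024 * p.n * (32 * p.r ^ (lev k + 1)) = 32768 * (p.n * p.r ^ (lev k + 1)) := by
          ring
        have h11 : 6 * p.n * (2 * p.r ^ (lev k + 1)) = 12 * (p.n * p.r ^ (lev k + 1)) := by ring
        have h13 : 0 < p.n * p.r ^ (lev k + 1) := by positivity
        omega
      · simp only [hc, if_false]
        exact lt_of_le_of_lt (Nat.mul_le_mul_right _ hcard) hRP)
  have hRle : R ≤ p.P i * R := Nat.le_mul_of_pos_left _ hP
  have hnear : ∀ β z, p.P i ∣ z + K → (∀ g < 2 * R, ¬ p.P i ∣ K + (β + (p.P i * R - R)) + g) →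
      ¬ Near (p.P i) R z β := by
    rintro β z hz hβ ⟨d, hd, h | h⟩
    · apply hβ (R - d) (by omega)
      have e1 : K + (β + (p.P i * R - R)) + (R - d) + d = β + K + p.P i * R := by omega
      have e2 : z + d + K ≡ β + K [MOD p.P i] := h.add_right K
      have e3 : d + (z + K) ≡ d [MOD p.P i] := by
        have := (Nat.modEq_zero_iff_dvd.2 hz).add_left d
        simpa using this
      have e4 : d ≡ β + K [MOD p.P i] := by
        have h5 : z + d + K = d + (z + K) := by omega
        rw [h5] at e2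
        exact e3.symm.trans e2
      have e5 : β + K + p.P i * R ≡ β + K [MOD p.P i] := by
        have := (Nat.modEq_zero_iff_dvd.2 (Dvd.intro R rfl : p.P i ∣ p.P i * R)).add_left (β + K)
        simpa using this
      have e6 : K + (β + (p.P i * R - R)) + (R - d) + d ≡ 0 + d [MOD p.P i] := by
        rw [e1, zero_add]
        exact e5.trans e4.symm
      exact Nat.modEq_zero_iff_dvd.1 (Nat.ModEq.add_right_cancel' d e6)
    · apply hβ (R + d) (by omega)
      have e1 : K + (β + (p.P i * R - R)) + (R + d) = (β + d + K) + p.P i * R := by omega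
      rw [e1]
      apply Dvd.dvd.add _ (Dvd.intro R rfl)
      have e2 : z + K ≡ β + d + K [MOD p.P i] := h.add_right K
      exact (Nat.ModEq.dvd_iff e2 dvd_rfl).1 hz
  refine ⟨K, hK0, ?_, ?_⟩
  · intro k hk j hj
    have h1 := hK (k, 0) (by simp [hk]) j (by simpa using hj)
    simp only [if_true] at h1
    intro h2
    apply h1
    have e1 : K + s (u k) + j = s (u k) + K + j := by omega
    rw [e1]
    exact h2
  · intro z hz k hk _
    refine ⟨?_, ?_⟩
    · apply hnear _ _ hz
      intro g hg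
      have h1 := hK (k, 1) (by simp [hk]) g (by simpa using hg)
      simpa using h1
    · apply hnear _ _ hz
      intro g hg
      have h1 := hK (k, 2) (by simp [hk]) g (by simpa using hg)
      simpa using h1

end Pool.Agent.Helper51.SG
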