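import Pool.Agent.Helper68.SG.Ctx

/-! Part B4: positions in `v`, relative to the lemmas of B2. -/

set_option autoImplicit false

namespace Pool.Agent.Helper51.SG

open Pool.Agent.Helper68.SG

lemma cel_mod_of_modEq {r Q s t : ℕ} (hs : 0 < s) (ht : 0 < t) (h : s ≡ t [MOD 2 ^ r * Q]) :
    cel r s % Q = cel r t % Q := by
  have h1 : s - 1 ≡ t - 1 [MOD 2 ^ r * Q] := by
    apply Nat.ModEq.add_right_cancel' 1
    have e1 : s - 1 + 1 = s := by omega
    have e2 : t - 1 + 1 = t := by omega
    rw [e1, e2]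
    exact h
  unfold cel
  rw [← Nat.mod_mul_right_div_self, ← Nat.mod_mul_right_div_self, h1]

lemma modEq_of_cel_mod {r Q s t : ℕ} (hs : 0 < s) (ht : 0 < t) (h : s ≡ t [MOD 2 ^ r])
    (hc : cel r s % Q = cel r t % Q) : s ≡ t [MOD 2 ^ r * Q] := by
  have ho := off_eq_of_modEq hs ht h
  unfold off at ho
  unfold cel at hc
  have h1 : s - 1 ≡ t - 1 [MOD 2 ^ r * Q] := by
    show (s - 1) % (2 ^ r * Q) = (t - 1) % (2 ^ r * Q)
    rw [Nat.mod_mul, Nat.mod_mul, ho, hc]
  have h2 := h1.add_right 1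
  have e1 : s - 1 + 1 = s := by omega
  have e2 : t - 1 + 1 = t := by omega
  rwa [e1, e2] at h2

/-- the statement of `know_of_wid` for given data -/
def KnowOf {A : Type} (p : Par) (w : ℕ → A) : Prop :=
  ∀ i a b L : ℕ, p.wid i ≤ L → Ag w a b L → a ≡ b [MOD p.P i]

theorem baseView_of {A : Type} {p : Par} {w : ℕ → A} {tau : ℕ → ℕ → ℕ → ℕ}
    {C : ℕ → ℕ → ℕ → Prop} {m : ℕ} {u v s nn Tu Tv : ℕ → ℕ} (hkw : KnowOf p w)
    (hlv : ∀ N : ℕ, 1 ≤ N → p.wid (lv p N) ≤ N)
    (hc : Ctx p w tau C m u v s nn Tu Tv) {K : ℕ} (hK : 0 < K) (hV : Val p m u s nn K) :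
    (∀ k < m, ∀ j < nn (u k), v2 (Tu k + K + j) = v2 (s (u k) + K + j)) ∧
    (∀ k < m, ∀ j < nn (v k), v2 (Tv k + K + j) = v2 (s (v k) + K + j)) := by
  have h1 : ∀ k < m, ∀ j < nn (u k), v2 (Tu k + K + j) = v2 (s (u k) + K + j) := by
    intro k hk j hj
    have hmod := hkw (lv p (nn (u k))) _ _ _ (hlv _ (hc.hnn _)) (hc.occ k hk)
    have hn := hV k hk j hj
    unfold Par.P at hmod hn
    exact v2_congr ((hmod.add_right K).add_right j) hn
  refine ⟨h1, ?_⟩
  have hab : ∀ x, 0 < s x + K ∧ s x + K < s x + K + nn x := by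
    intro x
    have := hc.hnn x
    omega
  have hVP : VP (fun x => s x + K) (fun x => s x + K + nn x) (Tu 0 + K) (Tu m + K) u m := by
    refine ⟨fun k => Tu k + K, rfl, rfl, ?_⟩
    intro k hk
    refine ⟨?_, ?_⟩
    · show Tu (k + 1) + K + (s (u k) + K) = Tu k + K + (s (u k) + K + nn (u k))
      rw [hc.hTu k hk]
      omega
    · intro j hj
      change s (u k) + K + j < s (u k) + K + nn (u k) at hj
      exact h1 k hk j (by omega)
  obtain ⟨T', hT0, hTm, hT⟩ := hc.HC _ _ _ _ (by omega) hab hVP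
  have hT' : ∀ k ≤ m, T' k = Tv k + K := by
    intro k
    induction k with
    | zero =>
      intro _
      rw [hT0, hc.hT0]
    | succ k ih =>
      intro hk
      have e1 : T' (k + 1) + (s (v k) + K) = T' k + (s (v k) + K + nn (v k)) := (hT k hk).1
      have e2 := ih (by omega)
      have e3 := hc.hTv k hk
      omega
  intro k hk j hj
  have e1 := (hT k hk).2 j (by
    show s (v k) + K + j < s (v k) + K + nn (v k)
    omega)
  rw [hT' k hk.le] at e1
  exact e1

theorem posV_of {A : Type} {p : Par} {w : ℕ → A} {tau : ℕ → ℕ → ℕ → ℕ}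
    {C : ℕ → ℕ → ℕ → Prop} {m : ℕ} {u v s nn Tu Tv : ℕ → ℕ} (hkw : KnowOf p w)
    (hlv : ∀ N : ℕ, 1 ≤ N → p.wid (lv p N) ≤ N)
    (hc : Ctx p w tau C m u v s nn Tu Tv) (i k : ℕ) (hk : k < m)
    (hK4 : ∃ K, 0 < K ∧ Val p m u s nn K ∧ (∃ j < nn (v k), 2 ^ Helper68.SG.em p i ∣ s (v k) + K + j) ∧
      ∀ k < m, nn (u k) < p.wid i → ∀ j < nn (u k),
        ¬ 2 ^ Helper68.SG.em p i ∣ s (u k) + K + j) :
    Tv k ≡ s (v k) [MOD p.P i] := by
  obtain ⟨K, hK, hV, ⟨j0, hj0, hj0'⟩, hsmall⟩ := hK4
  obtain ⟨hbu, hbv⟩ := baseView_of hkw hlv hc hK hV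
  have hem : Helper68.SG.em p i ≤ p.e i := by
    unfold Helper68.SG.em
    split_ifs with h0
    · omega
    · obtain ⟨i', rfl⟩ : ∃ i', i = i' + 1 := ⟨i - 1, by omega⟩
      have h1 := hc.ok.P_succ i'
      have h2 := hc.ok.n_pos
      unfold Par.P at h1
      have h3 : 2 ^ p.e i' ≤ 2 ^ p.e (i' + 1) := by
        refine le_trans ?_ h1
        have : 1 ≤ 4 * p.n := by omega
        exact Nat.le_mul_of_pos_left _ (by omega)
      have h4 := (Nat.pow_le_pow_iff_right (by norm_num : 1 < 2)).1 h3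
      simpa using h4
  set r := Helper68.SG.em p i with hr
  set Q := 2 ^ (p.e i - r) with hQ
  have hPi : p.P i = 2 ^ r * Q := by
    unfold Par.P
    rw [hQ, ← pow_add]
    congr 1
    omega
  set a : ℕ → ℕ := fun x => s x + K with ha
  set b : ℕ → ℕ := fun x => s x + K + nn x with hb
  have hab : ∀ x, 0 < a x ∧ a x < b x := by
    intro x
    have := hc.hnn x
    simp only [ha, hb]
    omega
  have hVP : VP a b (Tu 0 + K) (Tu m + K) u m := by
    refine ⟨fun k => Tu k + K, rfl, rfl, ?_⟩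
    intro k hk
    refine ⟨?_, ?_⟩
    · show Tu (k + 1) + K + (s (u k) + K) = Tu k + K + (s (u k) + K + nn (u k))
      rw [hc.hTu k hk]
      omega
    · intro j hj
      change s (u k) + K + j < s (u k) + K + nn (u k) at hj
      exact hbu k hk j (by omega)
  have hpath : Path (fun x => Mk r (a x) (b x)) (fun x => cel r (a x) % Q)
      (fun x => cel r (b x) % Q) (cel r (Tu 0 + K) % Q) (cel r (Tu m + K) % Q) u m := by
    refine ⟨fun k => cel r (Tu k + K) % Q, rfl, rfl, ?_⟩
    intro k hk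
    refine ⟨?_, ?_⟩
    · intro hX
      have hbig : p.wid i ≤ nn (u k) := by
        by_contra hlt
        push Not at hlt
        obtain ⟨z, hz1, hz2, hz3⟩ := hX
        obtain ⟨j, rfl⟩ := Nat.exists_eq_add_of_le hz1
        exact hsmall k hk hlt j (by
          simp only [ha, hb] at hz2
          omega) hz3
      have hmod := hkw i _ _ _ hbig (hc.occ k hk)
      rw [hPi] at hmod
      refine ⟨?_, ?_⟩
      · exact cel_mod_of_modEq (by omega) (by simp only [ha]; omega) (hmod.add_right K)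
      · show cel r (Tu (k + 1) + K) % Q = cel r (b (u k)) % Q
        rw [hc.hTu k hk]
        have h1 := (hmod.add_right K).add_right (nn (u k))
        have h2 : Tu k + nn (u k) + K = Tu k + K + nn (u k) := by omega
        rw [h2]
        exact cel_mod_of_modEq (by omega) (by simp only [hb]; omega) h1
    · intro hX
      have hno := viewNo (t := Tu k + K) (by omega) (hab (u k)).1 (by
        intro j hj
        simp only [ha, hb] at hj
        exact hbu k hk j (by omega)) hX
      show cel r (Tu (k + 1) + K) % Q = cel r (Tu k + K) % Q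
      rw [cel_eq_of_no_mult (s := Tu k + K) (by omega) (by rw [hc.hTu k hk]; omega)]
      intro z hz1 hz2
      obtain ⟨j, rfl⟩ := Nat.exists_eq_add_of_le hz1
      apply hno j
      rw [hc.hTu k hk] at hz2
      simp only [ha, hb]
      omega
  obtain ⟨pot, hp0, hpm, hp⟩ := lemV hc.HC hab (by omega) hVP r _ _ _ _ hpath
  -- consequences of a marker in `v`
  have hcons : ∀ k < m, Mk r (a (v k)) (b (v k)) →
      cel r (Tv k + K) % Q = cel r (a (v k)) % Q → Tv k + K ≡ s (v k) + K [MOD p.P i] := by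
    intro k hk hX hcel
    have hmod := viewMod (t := Tv k + K) (by omega) (hab (v k)).1 (by
      intro j hj
      simp only [ha, hb] at hj
      exact hbv k hk j (by omega)) hX
    have hmod' : Tv k + K ≡ a (v k) [MOD 2 ^ r] := hmod.of_dvd (pow_dvd_pow 2 (Nat.le_succ r))
    rw [hPi]
    exact modEq_of_cel_mod (by omega) (hab (v k)).1 hmod' hcel
  have hpv : ∀ k ≤ m, pot k = cel r (Tv k + K) % Q := by
    intro k
    induction k with
    | zero =>
      intro _
      rw [hp0, hc.hT0]
    | succ k ih =>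
      intro hk
      have ihk := ih (by omega)
      by_cases hX : Mk r (a (v k)) (b (v k))
      · obtain ⟨h1, h2⟩ := (hp k hk).1 hX
        have h3 := hcons k hk hX (by rw [← ihk, h1])
        rw [h2, hc.hTv k hk]
        have h4 : Tv k + nn (v k) + K = Tv k + K + nn (v k) := by omega
        rw [h4]
        rw [hPi] at h3
        exact (cel_mod_of_modEq (by omega) (by omega)
          (h3.add_right (nn (v k)))).symm
      · rw [(hp k hk).2 hX, ihk]
        have hno := viewNo (t := Tv k + K) (by omega) (hab (v k)).1 (by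
          intro j hj
          simp only [ha, hb] at hj
          exact hbv k hk j (by omega)) hX
        rw [cel_eq_of_no_mult (s := Tv k + K) (t := Tv (k + 1) + K) (by omega)
          (by rw [hc.hTv k hk]; omega)]
        intro z hz1 hz2
        obtain ⟨j, rfl⟩ := Nat.exists_eq_add_of_le hz1
        apply hno j
        rw [hc.hTv k hk] at hz2
        simp only [ha, hb]
        omega
  have hX : Mk r (a (v k)) (b (v k)) := ⟨s (v k) + K + j0, by simp only [ha]; omega,
    by simp only [hb]; omega, hj0'⟩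
  have h1 := ((hp k hk).1 hX).1
  have h2 := hcons k hk hX (by rw [← hpv k hk.le, h1])
  exact Nat.ModEq.add_right_cancel' K h2

end Pool.Agent.Helper51.SG
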