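import Pool.Agent.Helper51.SG.B2
import Pool.Agent.Helper51.SG.B4aux

/-! Part B4: positions in `v`. -/

set_option autoImplicit false

namespace Pool.Agent.Helper51.SG

open Pool.Agent.Helper68.SG

theorem baseView {A : Type} {p : Par} {w : ℕ → A} {tau : ℕ → ℕ → ℕ → ℕ}
    {C : ℕ → ℕ → ℕ → Prop} {m : ℕ} {u v s nn Tu Tv : ℕ → ℕ}
    (hc : Ctx p w tau C m u v s nn Tu Tv) {K : ℕ} (hK : 0 < K) (hV : Val p m u s nn K) :
    (∀ k < m, ∀ j < nn (u k), v2 (Tu k + K + j) = v2 (s (u k) + K + j)) ∧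
    (∀ k < m, ∀ j < nn (v k), v2 (Tv k + K + j) = v2 (s (v k) + K + j)) :=
  baseView_of (fun _ _ _ _ hL h => know_of_wid hc.ok hc.good hL h)
    (fun _ hN => (lv_spec hc.ok hN).1) hc hK hV

theorem posV {A : Type} {p : Par} {w : ℕ → A} {tau : ℕ → ℕ → ℕ → ℕ}
    {C : ℕ → ℕ → ℕ → Prop} {m : ℕ} {u v s nn Tu Tv : ℕ → ℕ}
    (hc : Ctx p w tau C m u v s nn Tu Tv) (i k : ℕ) (hk : k < m) (hb : Lam p i ≤ nn (v k)) :
    Tv k ≡ s (v k) [MOD p.P i] :=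
  posV_of (fun _ _ _ _ hL h => know_of_wid hc.ok hc.good hL h)
    (fun _ hN => (lv_spec hc.ok hN).1) hc i k hk
    (exists_K4 hc.ok hc.hm u s nn hc.hnn i (v k) hb)

end Pool.Agent.Helper51.SG
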