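import Pool.Agent.Helper51.SG.PartA2

/-! Part A of the proof of S01797. -/

set_option autoImplicit false

namespace Pool.Agent.Helper51.SG

open Pool.Agent.Helper68.SG

section words

variable {S : Type} [Semigroup S]

/-- evaluation of a word in the monoid `WithOne S` -/
def ev {X : Type} (F : X → S) (l : List X) : WithOne S := (l.map (fun x => (F x : WithOne S))).prod

lemma ev_append {X : Type} (F : X → S) (l l' : List X) : ev F (l ++ l') = ev F l * ev F l' := by
  simp [ev]

lemma ev_nil {X : Type} (F : X → S) : ev F [] = 1 := by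
  simp [ev]

lemma ev_cons {X : Type} (F : X → S) (x : X) (l : List X) :
    ev F (x :: l) = (F x : WithOne S) * ev F l := by
  simp [ev]

lemma ev_lift (F : ℕ → S) (w : FreeSemigroup ℕ) :
    ((FreeSemigroup.lift F w : S) : WithOne S) = ev F (toL w) := by
  induction w using FreeSemigroup.recOnMul with
  | ih1 x =>
    rw [FreeSemigroup.lift_of]
    have : toL (FreeSemigroup.of x) = [x] := rfl
    rw [this]
    simp [ev]
  | ih2 x y _ ih =>
    rw [map_mul, FreeSemigroup.lift_of, WithOne.coe_mul, ih]
    have : toL (FreeSemigroup.of x * y) = x :: toL y := rfl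
    rw [this, ev_cons]

lemma ev_coe {X : Type} (F : X → S) (l : List X) (hl : l ≠ []) : ∃ s : S, ev F l = (s : WithOne S) := by
  induction l with
  | nil => exact absurd rfl hl
  | cons x l ih =>
    rw [ev_cons]
    by_cases h : l = []
    · subst h
      exact ⟨F x, by simp [ev_nil]⟩
    · obtain ⟨s, hs⟩ := ih h
      exact ⟨F x * s, by rw [hs, WithOne.coe_mul]⟩

lemma ev_closure {X : Type} (F : X → S) (s : S) (hs : s ∈ Subsemigroup.closure (Set.range F)) :
    ∃ l : List X, ev F l = (s : WithOne S) := by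
  induction hs using Subsemigroup.closure_induction with
  | mem x hx =>
    obtain ⟨i, rfl⟩ := hx
    exact ⟨[i], by simp [ev]⟩
  | mul x y _ _ ihx ihy =>
    obtain ⟨l, hl⟩ := ihx
    obtain ⟨l', hl'⟩ := ihy
    exact ⟨l ++ l', by rw [ev_append, hl, hl', WithOne.coe_mul]⟩

lemma ev_flatMap {X Y : Type} (F : Y → S) (φ : X → List Y) (hφ : ∀ x, φ x ≠ []) :
    ∃ G : X → S, ∀ l : List X, ev F (l.flatMap φ) = ev G l := by
  choose G hG using fun x => ev_coe F (φ x) (hφ x)
  refine ⟨G, fun l => ?_⟩
  induction l with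
  | nil => simp [ev_nil]
  | cons x l ih => rw [List.flatMap_cons, ev_append, ih, ev_cons, hG]

/-- powers of an element lie in the closure -/
lemma pow_mem_closure (a : S) (n : ℕ) :
    ∃ s ∈ Subsemigroup.closure ({a} : Set S), (a : WithOne S) ^ (n + 1) = (s : WithOne S) := by
  induction n with
  | zero => exact ⟨a, Subsemigroup.subset_closure rfl, by simp⟩
  | succ n ih =>
    obtain ⟨s, hs, h⟩ := ih
    exact ⟨s * a, Subsemigroup.mul_mem _ hs (Subsemigroup.subset_closure rfl), by
      rw [pow_succ, h, WithOne.coe_mul]⟩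

lemma closure_pow (a s : S) (hs : s ∈ Subsemigroup.closure ({a} : Set S)) :
    ∃ n : ℕ, (s : WithOne S) = (a : WithOne S) ^ n := by
  induction hs using Subsemigroup.closure_induction with
  | mem x hx =>
    rw [Set.mem_singleton_iff] at hx
    subst hx
    exact ⟨1, by simp⟩
  | mul x y _ _ ihx ihy =>
    obtain ⟨l, hl⟩ := ihx
    obtain ⟨l', hl'⟩ := ihy
    exact ⟨l + l', by rw [WithOne.coe_mul, hl, hl', pow_add]⟩

lemma pow_inj (a : S) (ha : (Subsemigroup.closure ({a} : Set S) : Set S).Infinite) :
    Function.Injective (fun n : ℕ => (a : WithOne S) ^ n) := by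
  by_contra hcon
  have : ∃ i j : ℕ, i < j ∧ (a : WithOne S) ^ i = (a : WithOne S) ^ j := by
    simp only [Function.Injective] at hcon
    push Not at hcon
    obtain ⟨i, j, hij, hne⟩ := hcon
    rcases lt_or_gt_of_ne hne with h | h
    · exact ⟨i, j, h, hij⟩
    · exact ⟨j, i, h, hij.symm⟩
  obtain ⟨i, j, hij, he⟩ := this
  have hall : ∀ n : ℕ, ∃ k < j, (a : WithOne S) ^ n = (a : WithOne S) ^ k := by
    intro n
    induction n using Nat.strong_induction_on with
    | _ n ih =>
      rcases lt_or_ge n j with hn | hn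
      · exact ⟨n, hn, rfl⟩
      · obtain ⟨k, hk, hk'⟩ := ih (n - j + i) (by omega)
        refine ⟨k, hk, ?_⟩
        rw [← hk', pow_add, he, ← pow_add]
        congr 1
        omega
  apply ha
  have hfin : ((fun k : ℕ => (a : WithOne S) ^ k) '' (Set.Iio j)).Finite :=
    (Set.finite_Iio j).image _
  apply Set.Finite.of_finite_image (f := fun s : S => (s : WithOne S)) _
    (WithOne.coe_injective.injOn)
  apply hfin.subset
  rintro _ ⟨s, hs, rfl⟩
  obtain ⟨n, hn⟩ := closure_pow a s hs
  obtain ⟨k, hk, hk'⟩ := hall n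
  exact ⟨k, hk, hk'.symm.trans hn.symm⟩

lemma pow_repeat (a : S) (ha : (Subsemigroup.closure ({a} : Set S) : Set S).Finite) :
    ∃ i j : ℕ, i < j ∧ (a : WithOne S) ^ (i + 1) = (a : WithOne S) ^ (j + 1) := by
  by_contra hcon
  push Not at hcon
  have hinj : Function.Injective (fun n : ℕ => (a : WithOne S) ^ (n + 1)) := by
    intro i j hij
    by_contra hne
    rcases lt_or_gt_of_ne hne with h | h
    · exact hcon i j h hij
    · exact hcon j i h hij.symm
  have hfin : ((fun s : S => (s : WithOne S)) ''
      (Subsemigroup.closure ({a} : Set S) : Set S)).Finite := ha.image _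
  have h2 : (Set.range (fun n : ℕ => (a : WithOne S) ^ (n + 1))).Finite := by
    apply hfin.subset
    rintro _ ⟨n, rfl⟩
    obtain ⟨s, hs, h⟩ := pow_mem_closure a n
    exact ⟨s, hs, h.symm⟩
  exact (Set.infinite_range_of_injective hinj) h2

lemma ev_const {X : Type} [DecidableEq X] (a : S) (x : X) (l : List X) :
    ev (fun y => if y = x then a * a else a) l = (a : WithOne S) ^ (l.length + l.count x) := by
  induction l with
  | nil => simp [ev_nil]
  | cons y l ih =>
    rw [ev_cons, ih]
    by_cases h : y = x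
    · subst h
      simp only [if_true, List.length_cons, List.count_cons_self, WithOne.coe_mul]
      rw [← pow_two, ← pow_add]
      congr 1
      omega
    · rw [if_neg h, List.length_cons, List.count_cons_of_ne h]
      rw [← pow_succ']
      congr 1
      omega

lemma ev_const' {X : Type} (a : S) (l : List X) :
    ev (fun _ => a) l = (a : WithOne S) ^ l.length := by
  induction l with
  | nil => simp [ev_nil]
  | cons y l ih => rw [ev_cons, ih, List.length_cons, ← pow_succ']

lemma balanced (a : S) (ha : (Subsemigroup.closure ({a} : Set S) : Set S).Infinite) (u v : List ℕ)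
    (h : ∀ F : ℕ → S, ev F u = ev F v) : u.Perm v := by
  have hinj := pow_inj a ha
  have h1 : u.length = v.length := hinj (by
    have := h (fun _ => a)
    rw [ev_const', ev_const'] at this
    exact this)
  rw [List.perm_iff_count]
  intro x
  have h2 : u.length + u.count x = v.length + v.count x := hinj (by
    have := h (fun y => if y = x then a * a else a)
    rw [ev_const, ev_const] at this
    exact this)
  omega

end words

section minimal

variable {Al : Type} [LinearOrder Al]

/-- `w'` and `w` have the same length and `w'` is lexicographically smaller -/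
def FD (w' w : List Al) : Prop :=
  ∃ x c' c y' y, w' = x ++ c' :: y' ∧ w = x ++ c :: y ∧ c' < c ∧ y'.length = y.length

lemma FD_append {w' w : List Al} (h : FD w' w) (s t : List Al) : FD (s ++ w' ++ t) (s ++ w ++ t) := by
  obtain ⟨x, c', c, y', y, rfl, rfl, hc, hy⟩ := h
  exact ⟨s ++ x, c', c, y' ++ t, y ++ t, by simp, by simp, hc, by simp [hy]⟩

lemma FD_lt {w' w : List Al} (h : FD w' w) : w' < w := by
  obtain ⟨x, c', c, y', y, rfl, rfl, hc, -⟩ := h
  induction x with
  | nil => exact List.Lex.rel hc
  | cons a x ih => exact List.Lex.cons ih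

lemma FD_length {w' w : List Al} (h : FD w' w) : w'.length = w.length := by
  obtain ⟨x, c', c, y', y, rfl, rfl, -, hy⟩ := h
  simp [hy]

variable {S : Type} [Semigroup S]

/-- shortlex minimal words -/
def Mn (g : Al → S) : Set (List Al) :=
  {w | ∀ w', ev g w' = ev g w → ¬ (w'.length < w.length ∨ FD w' w)}

lemma Mn_fac (g : Al → S) : Fac (Mn g) := by
  intro w hw z hz w' hw' h
  obtain ⟨s, t, rfl⟩ := hz
  refine hw (s ++ w' ++ t) ?_ ?_
  · rw [ev_append, ev_append, hw', ev_append, ev_append]
  · rcases h with h | h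
    · left
      simp
      omega
    · right
      exact FD_append h s t

lemma Mn_exists [Finite Al] (g : Al → S) (w : List Al) : ∃ w' ∈ Mn g, ev g w' = ev g w := by
  classical
  have hex : ∃ n : ℕ, ∃ w' : List Al, w'.length = n ∧ ev g w' = ev g w := ⟨_, w, rfl, rfl⟩
  obtain ⟨w0, hw0, hw0'⟩ := Nat.find_spec hex
  set n := Nat.find hex with hn
  have hfin : {l : List Al | l.length = n ∧ ev g l = ev g w}.Finite :=
    (finite_length_eq (Al := Al) n).subset (fun l hl => hl.1)
  obtain ⟨m, hm, hmin⟩ := hfin.exists_minimal ⟨w0, hw0, hw0'⟩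
  refine ⟨m, ?_, hm.2⟩
  rintro w' hw' (h | h)
  · have := Nat.find_min hex (m := w'.length) (by rw [← hn, ← hm.1]; exact h)
    exact this ⟨w', rfl, hw'.trans hm.2⟩
  · have h1 := FD_lt h
    have h2 : w'.length = n ∧ ev g w' = ev g w := ⟨(FD_length h).trans hm.1, hw'.trans hm.2⟩
    exact absurd (hmin h2 h1.le) (not_le.2 h1)

lemma Mn_long [Finite Al] (g : Al → S)
    (hinf : (Subsemigroup.closure (Set.range g) : Set S).Infinite) : Long (Mn g) := by
  intro n
  by_contra hcon
  push Not at hcon
  apply hinf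
  have hsub : Mn g ⊆ {l : List Al | l.length ≤ n} := by
    intro w hw
    by_contra hlen
    simp only [Set.mem_ofPred_eq, not_le] at hlen
    exact hcon (w.take n) (Mn_fac g w hw _ (List.take_prefix n w).isInfix) (by
      simp
      omega)
  have hfin : (Mn g).Finite := (List.finite_length_le Al n).subset hsub
  apply Set.Finite.of_finite_image (f := fun s : S => (s : WithOne S)) _
    (WithOne.coe_injective.injOn)
  apply (hfin.image (ev g)).subset
  rintro _ ⟨s, hs, rfl⟩
  obtain ⟨l, hl⟩ := ev_closure g s hs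
  obtain ⟨w', hw', h⟩ := Mn_exists g l
  exact ⟨w', hw', h.trans hl⟩

omit [LinearOrder Al] in
lemma ev_flatten_replicate (g : Al → S) (y : List Al) (k : ℕ) :
    ev g (List.replicate k y).flatten = ev g y ^ k := by
  induction k with
  | zero => simp [ev_nil]
  | succ k ih => rw [List.replicate_succ, List.flatten_cons, ev_append, ih, pow_succ']

lemma Mn_pow (g : Al → S)
    (hper : ∀ a : S, (Subsemigroup.closure ({a} : Set S) : Set S).Finite) (y : List Al)
    (hy : y ≠ []) : ∃ k, (List.replicate k y).flatten ∉ Mn g := by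
  obtain ⟨s, hs⟩ := ev_coe g y hy
  obtain ⟨i, j, hij, he⟩ := pow_repeat s (hper s)
  refine ⟨j + 1, fun hM => ?_⟩
  refine hM (List.replicate (i + 1) y).flatten ?_ (Or.inl ?_)
  · rw [ev_flatten_replicate, ev_flatten_replicate, hs, he]
  · have hl : 0 < y.length := List.length_pos_iff.2 hy
    simp only [List.length_flatten, List.map_replicate, List.sum_replicate, smul_eq_mul]
    exact Nat.mul_lt_mul_of_pos_right (by omega) hl

end minimal

/-- the first place where two lists of the same length differ -/
lemma first_diff {X : Type} [DecidableEq X] : ∀ (a b : List X), a.length = b.length → a ≠ b →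
    ∃ x c d y z, a = x ++ c :: y ∧ b = x ++ d :: z ∧ c ≠ d := by
  intro a
  induction a with
  | nil =>
    intro b hb hne
    have : b = [] := List.length_eq_zero_iff.1 hb.symm
    exact absurd this.symm hne
  | cons c a ih =>
    intro b hb hne
    cases b with
    | nil => simp at hb
    | cons d b =>
      by_cases hcd : c = d
      · subst hcd
        obtain ⟨x, c', d', y, z, ha, hb', h⟩ := ih b (by simpa using hb) (by
          intro h
          exact hne (by rw [h]))
        exact ⟨c :: x, c', d', y, z, by rw [ha]; rfl, by rw [hb']; rfl, h⟩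
      · exact ⟨[], c, d, a, b, rfl, rfl, hcd⟩

lemma perm_flatMap {X Y : Type} {l₁ l₂ : List X} (h : l₁.Perm l₂) (f : X → List Y) :
    (l₁.flatMap f).Perm (l₂.flatMap f) := h.flatMap_right f

theorem rulComm_of {S : Type} [Semigroup S]
    (hper : ∀ a : S, (Subsemigroup.closure ({a} : Set S) : Set S).Finite)
    {Al : Type} [Finite Al] [LinearOrder Al] (g : Al → S)
    (hinf : (Subsemigroup.closure (Set.range g) : Set S).Infinite) (u v : List ℕ)
    (huv : u.Perm v) (hid : ∀ F : ℕ → S, ev F u = ev F v) : RulComm u v := by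
  obtain ⟨α, β, hαβ, hmain⟩ := lang_main (Mn_fac g) (Mn_long g hinf) (Mn_pow g hper)
  intro ψ hψ hrul
  by_contra hne
  have hlen : (u.flatMap ψ).length = (v.flatMap ψ).length := (perm_flatMap huv ψ).length_eq
  obtain ⟨x, c, d, y, z, hu, hv, hcd⟩ := first_diff _ _ hlen (Ne.symm hne)
  obtain ⟨θ, hθ, hW⟩ := hmain (fun t => if t = d then α else β) (by
    intro t
    by_cases h : t = d
    · left; simp [h]
    · right; simp [h])
  have hM := hW _ hrul
  have hθne : ∀ t, θ t ≠ [] := by
    intro t
    obtain ⟨X, hX⟩ := hθ t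
    rw [hX]
    simp
  obtain ⟨X, hX⟩ := hθ c
  obtain ⟨Y, hY⟩ := hθ d
  rw [if_neg hcd] at hX
  rw [if_pos rfl] at hY
  have hev : ev g ((v.flatMap ψ).flatMap θ) = ev g ((u.flatMap ψ).flatMap θ) := by
    obtain ⟨G, hG⟩ := ev_flatMap g (fun x => (ψ x).flatMap θ) (by
      intro x h
      have h1 := hψ x
      obtain ⟨a, l, hal⟩ := List.exists_cons_of_ne_nil h1
      rw [hal, List.flatMap_cons] at h
      exact hθne a (List.append_eq_nil_iff.1 h).1)
    rw [List.flatMap_assoc, List.flatMap_assoc, hG, hG]
    exact (hid G).symm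
  refine hM _ hev (Or.inr ?_)
  have hl2 : ((u.flatMap ψ).flatMap θ).length = ((v.flatMap ψ).flatMap θ).length :=
    (perm_flatMap (perm_flatMap huv ψ) θ).length_eq
  rw [hu, hv] at hl2 ⊢
  refine ⟨x.flatMap θ, α, β, Y ++ z.flatMap θ, X ++ y.flatMap θ, ?_, ?_, hαβ, ?_⟩
  · rw [List.flatMap_append, List.flatMap_cons, hY]
    simp
  · rw [List.flatMap_append, List.flatMap_cons, hX]
    simp
  · rw [List.flatMap_append, List.flatMap_cons, hX, List.flatMap_append, List.flatMap_cons, hY]
      at hl2
    simp at hl2 ⊢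
    omega

theorem partA (E : List (FreeSemigroup ℕ × FreeSemigroup ℕ))
    (h1 : ∃ (S : Type) (_ : Semigroup S),
          (∀ p ∈ E, ∀ f : FreeSemigroup ℕ →ₙ* S, f p.1 = f p.2) ∧
          ∃ a : S, (Subsemigroup.closure ({a} : Set S) : Set S).Infinite)
    (h2 : ∃ (S : Type) (_ : Semigroup S),
          (∀ p ∈ E, ∀ f : FreeSemigroup ℕ →ₙ* S, f p.1 = f p.2) ∧
          (∀ a : S, (Subsemigroup.closure ({a} : Set S) : Set S).Finite) ∧
          ∃ A : Set S, A.Finite ∧ (Subsemigroup.closure A : Set S).Infinite) :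
    ∀ p ∈ E, (toL p.1).Perm (toL p.2) ∧ RulComm (toL p.1) (toL p.2) ∧
      RulComm (toL p.2) (toL p.1) := by
  classical
  obtain ⟨S1, i1, hS1, a, ha⟩ := h1
  obtain ⟨S2, i2, hS2, hper, A, hA, hAinf⟩ := h2
  intro p hp
  have hid1 : ∀ F : ℕ → S1, ev F (toL p.1) = ev F (toL p.2) := by
    intro F
    rw [← ev_lift, ← ev_lift, hS1 p hp]
  have hid2 : ∀ F : ℕ → S2, ev F (toL p.1) = ev F (toL p.2) := by
    intro F
    rw [← ev_lift, ← ev_lift, hS2 p hp]
  have hperm := balanced a ha _ _ hid1
  have := hA.fintype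
  let e := Fintype.equivFin A
  have hrange : Set.range (fun i : Fin (Fintype.card A) => ((e.symm i : A) : S2)) = A := by
    ext s
    constructor
    · rintro ⟨i, rfl⟩
      exact (e.symm i).2
    · intro hs
      exact ⟨e ⟨s, hs⟩, by simp⟩
  have hinf : (Subsemigroup.closure (Set.range (fun i : Fin (Fintype.card A) =>
      ((e.symm i : A) : S2))) : Set S2).Infinite := by
    rw [hrange]
    exact hAinf
  exact ⟨hperm, rulComm_of hper _ hinf _ _ hperm hid2,
    rulComm_of hper _ hinf _ _ hperm.symm (fun F => (hid2 F).symm)⟩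

end Pool.Agent.Helper51.SG
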