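import Pool.Agent.Helper68.SG.Defs

/-! Factorial languages and uniform recurrence (part A of the proof of S01797). -/

set_option autoImplicit false

namespace Pool.Agent.Helper51.SG

open Pool.Agent.Helper68.SG

variable {Al : Type}

/-- `L` is closed under factors. -/
def Fac (L : Set (List Al)) : Prop := ∀ w ∈ L, ∀ z : List Al, z <:+: w → z ∈ L

/-- `L` has words of every length. -/
def Long (L : Set (List Al)) : Prop := ∀ n : ℕ, ∃ w ∈ L, w.length = n

lemma chain_avoid {c : Set (Set (List Al))} (hc : IsChain (· ⊆ ·) c) {L : Set (List Al)} (hL : L ∈ c)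
    (X : Finset (List Al)) (h : ∀ x ∈ X, ∃ L' ∈ c, x ∉ L') : ∃ L' ∈ c, ∀ x ∈ X, x ∉ L' := by
  classical
  induction X using Finset.induction_on with
  | empty => exact ⟨L, hL, by simp⟩
  | insert a s ha ih =>
    obtain ⟨L1, hL1, h1⟩ := ih (fun x hx => h x (Finset.mem_insert_of_mem hx))
    obtain ⟨L2, hL2, h2⟩ := h a (Finset.mem_insert_self a s)
    rcases hc.total hL1 hL2 with h12 | h12
    · refine ⟨L1, hL1, fun x hx => ?_⟩
      rcases Finset.mem_insert.1 hx with rfl | hx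
      · exact fun h' => h2 (h12 h')
      · exact h1 x hx
    · refine ⟨L2, hL2, fun x hx => ?_⟩
      rcases Finset.mem_insert.1 hx with rfl | hx
      · exact h2
      · exact fun h' => h1 x hx (h12 h')

lemma finite_length_eq [Finite Al] (n : ℕ) : {l : List Al | l.length = n}.Finite :=
  List.finite_length_eq Al n

lemma exists_min [Finite Al] {M : Set (List Al)} (hF : Fac M) (hL : Long M) :
    ∃ L0 ⊆ M, Fac L0 ∧ Long L0 ∧ ∀ L' ⊆ L0, Fac L' → Long L' → L0 ⊆ L' := by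
  classical
  obtain ⟨m, hm⟩ := zorn_superset {L : Set (List Al) | L ⊆ M ∧ Fac L ∧ Long L} (by
    intro c hcS hc
    rcases c.eq_empty_or_nonempty with rfl | ⟨L1, hL1⟩
    · exact ⟨M, ⟨subset_rfl, hF, hL⟩, by simp⟩
    · refine ⟨⋂₀ c, ⟨?_, ?_, ?_⟩, fun s hs => Set.sInter_subset_of_mem hs⟩
      · exact (Set.sInter_subset_of_mem hL1).trans (hcS hL1).1
      · intro w hw z hz
        rw [Set.mem_sInter] at hw ⊢
        exact fun L' hL' => (hcS hL').2.1 w (hw L' hL') z hz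
      · intro n
        by_contra hcon
        push Not at hcon
        obtain ⟨L', hL', h'⟩ := chain_avoid hc hL1 (finite_length_eq (Al := Al) n).toFinset (by
          intro x hx
          by_contra hx'
          push Not at hx'
          exact hcon x (Set.mem_sInter.2 hx') (by simpa using hx))
        obtain ⟨w, hw, hwn⟩ := (hcS hL').2.2 n
        exact h' w (by simpa using hwn) hw)
  refine ⟨m, hm.prop.1, hm.prop.2.1, hm.prop.2.2, ?_⟩
  intro L' hL' hF' hLong'
  exact hm.le_of_le (y := L') ⟨hL'.trans hm.prop.1, hF', hLong'⟩ hL'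

lemma recurrence {L0 : Set (List Al)} (hF : Fac L0)
    (hmin : ∀ L' ⊆ L0, Fac L' → Long L' → L0 ⊆ L') :
    ∀ w ∈ L0, ∃ N : ℕ, ∀ x ∈ L0, N ≤ x.length → w <:+: x := by
  intro w hw
  by_contra hcon
  push Not at hcon
  have := hmin {x | x ∈ L0 ∧ ¬ w <:+: x} (fun x hx => hx.1) (by
    intro x hx z hz
    exact ⟨hF x hx.1 z hz, fun h => hx.2 (h.trans hz)⟩) (by
    intro n
    obtain ⟨x, hx, hxn, hwx⟩ := hcon n
    refine ⟨x.take n, ⟨hF x hx _ (List.take_prefix n x).isInfix, fun h => hwx ?_⟩, ?_⟩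
    · exact h.trans (List.take_prefix n x).isInfix
    · simp [hxn])
  exact (this hw).2 (List.infix_refl w)


/-- Every word of `L0` extends to the right. -/
lemma extend {L0 : Set (List Al)} (hF : Fac L0) (hL : Long L0)
    (hrec : ∀ w ∈ L0, ∃ N : ℕ, ∀ x ∈ L0, N ≤ x.length → w <:+: x) (w : List Al) (hw : w ∈ L0) :
    ∃ c, w ++ [c] ∈ L0 := by
  obtain ⟨N, hN⟩ := hrec w hw
  obtain ⟨x, hx, hxl⟩ := hL (N + 1)
  have hxne : x ≠ [] := by
    intro h
    simp [h] at hxl
  obtain ⟨y, c, rfl⟩ : ∃ y c, x = y ++ [c] :=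
    ⟨x.dropLast, x.getLast hxne, (List.dropLast_append_getLast hxne).symm⟩
  have hyl : y.length = N := by simpa using hxl
  obtain ⟨s, t, hst⟩ := hN y (hF _ hx y (List.prefix_append y [c]).isInfix) hyl.ge
  cases t with
  | nil =>
    refine ⟨c, hF _ hx _ ?_⟩
    refine ⟨s, [], ?_⟩
    rw [← hst]
    simp
  | cons d t =>
    refine ⟨d, hF _ hx _ ?_⟩
    refine ⟨s, t ++ [c], ?_⟩
    rw [← hst]
    simp

lemma extend_many {L0 : Set (List Al)} (hext : ∀ w ∈ L0, ∃ c, w ++ [c] ∈ L0) (n : ℕ) :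
    ∀ w ∈ L0, ∃ z : List Al, z.length = n ∧ w ++ z ∈ L0 := by
  induction n with
  | zero => exact fun w hw => ⟨[], rfl, by simpa using hw⟩
  | succ n ih =>
    intro w hw
    obtain ⟨z, hz, hwz⟩ := ih w hw
    obtain ⟨c, hc⟩ := hext _ hwz
    exact ⟨z ++ [c], by simp [hz], by simpa [List.append_assoc] using hc⟩

/-- right special words -/
def RS (L0 : Set (List Al)) (α β : Al) : Set (List Al) := {r | r ++ [α] ∈ L0 ∧ r ++ [β] ∈ L0}

lemma RS_suffix {L0 : Set (List Al)} (hF : Fac L0) {α β : Al} {r s : List Al}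
    (hr : r ∈ RS L0 α β) (hs : s <:+ r) : s ∈ RS L0 α β := by
  obtain ⟨t, rfl⟩ := hs
  refine ⟨hF _ hr.1 _ ⟨t, [], by simp⟩, hF _ hr.2 _ ⟨t, [], by simp⟩⟩

/-- if long words have unique extensions then there are arbitrarily large powers -/
lemma powers_of_unique {L0 : Set (List Al)} (hF : Fac L0) (hL : Long L0)
    (hrec : ∀ w ∈ L0, ∃ N : ℕ, ∀ x ∈ L0, N ≤ x.length → w <:+: x) (m : ℕ)
    (hm : ∀ r : List Al, m ≤ r.length → ∀ α β, r ++ [α] ∈ L0 → r ++ [β] ∈ L0 → α = β) :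
    ∃ y : List Al, y ≠ [] ∧ ∀ k, (List.replicate k y).flatten ∈ L0 := by
  have hext := extend hF hL hrec
  obtain ⟨w, hw, hwl⟩ := hL (m + 1)
  obtain ⟨N, hN⟩ := hrec w hw
  obtain ⟨z, hz, hwz⟩ := extend_many hext N w hw
  obtain ⟨z1, z2, hzz⟩ := hN z (hF _ hwz z (List.suffix_append w z).isInfix) hz.ge
  set y := z1 ++ w with hy
  have hyne : y ≠ [] := by
    intro h
    have := congrArg List.length h
    simp [hy, hwl] at this
  have hwy : w ++ y ∈ L0 := by
    refine hF _ hwz _ ⟨[], z2, ?_⟩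
    rw [← hzz, hy]
    simp
  have step : ∀ u ∈ L0, w <:+ u → ∀ y1 y2 : List Al, y = y1 ++ y2 → u ++ y1 ∈ L0 := by
    intro u hu hwu y1
    induction y1 using List.reverseRecOn with
    | nil => intro y2 _; simpa using hu
    | append_singleton y1 c ih =>
      intro y2 hy12
      have h1 : u ++ y1 ∈ L0 := ih ([c] ++ y2) (by rw [hy12]; simp)
      obtain ⟨d, hd⟩ := hext _ h1
      obtain ⟨u', rfl⟩ := hwu
      have h2 : (w ++ y1) ++ [d] ∈ L0 := hF _ hd _ ⟨u', [], by simp⟩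
      have h3 : (w ++ y1) ++ [c] ∈ L0 := by
        refine hF _ hwy _ ⟨[], y2, ?_⟩
        rw [hy12]
        simp
      have hcd : c = d := hm (w ++ y1) (by simp [hwl]; omega) c d h3 h2
      rw [hcd]
      simpa using hd
  have main : ∀ k, w ++ (List.replicate k y).flatten ∈ L0 ∧ w <:+ w ++ (List.replicate k y).flatten := by
    intro k
    induction k with
    | zero => simpa using hw
    | succ k ih =>
      have h1 := step _ ih.1 ih.2 y [] (by simp)
      have h2 : (List.replicate (k + 1) y).flatten = (List.replicate k y).flatten ++ y := by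
        rw [List.replicate_succ']
        simp
      rw [h2, ← List.append_assoc]
      refine ⟨h1, ?_⟩
      rw [hy]
      exact ⟨w ++ (List.replicate k (z1 ++ w)).flatten ++ z1, by simp⟩
  refine ⟨y, hyne, fun k => hF _ (main k).1 _ (List.suffix_append _ _).isInfix⟩

lemma exists_RS [Finite Al] [LinearOrder Al] {L0 : Set (List Al)} (hF : Fac L0) (hL : Long L0)
    (hrec : ∀ w ∈ L0, ∃ N : ℕ, ∀ x ∈ L0, N ≤ x.length → w <:+: x)
    (hpow : ∀ y : List Al, y ≠ [] → ∃ k, (List.replicate k y).flatten ∉ L0) :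
    ∃ α β : Al, α < β ∧ ∀ m : ℕ, ∃ r ∈ RS L0 α β, m ≤ r.length := by
  classical
  have := Fintype.ofFinite Al
  by_contra hcon
  push Not at hcon
  choose! f hf using hcon
  set m := Finset.univ.sup (fun p : Al × Al => f p.1 p.2) with hm
  have hle : ∀ α β, f α β ≤ m := fun α β =>
    Finset.le_sup (f := fun p : Al × Al => f p.1 p.2) (Finset.mem_univ (α, β))
  obtain ⟨y, hy, hyk⟩ := powers_of_unique hF hL hrec m (by
    intro r hr α β hα hβ
    by_contra hne
    rcases lt_or_gt_of_ne hne with h | h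
    · exact absurd (hf α β h r ⟨hα, hβ⟩) (not_lt.2 ((hle α β).trans hr))
    · exact absurd (hf β α h r ⟨hβ, hα⟩) (not_lt.2 ((hle β α).trans hr)))
  obtain ⟨k, hk⟩ := hpow y hy
  exact hk (hyk k)

/-- `Z` is a suffix of arbitrarily long right special words -/
def QQ (L0 : Set (List Al)) (α β : Al) (Z : List Al) : Prop :=
  ∀ m : ℕ, ∃ r ∈ RS L0 α β, m ≤ r.length ∧ Z <:+ r

lemma QQ_mem {L0 : Set (List Al)} (hF : Fac L0) {α β : Al} {Z : List Al} (h : QQ L0 α β Z) :
    Z ++ [α] ∈ L0 ∧ Z ++ [β] ∈ L0 := by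
  obtain ⟨r, hr, -, hZ⟩ := h 0
  exact RS_suffix hF hr hZ

lemma QQ_step [Finite Al] {L0 : Set (List Al)} (hF : Fac L0)
    (hrec : ∀ w ∈ L0, ∃ N : ℕ, ∀ x ∈ L0, N ≤ x.length → w <:+: x) {α β : Al} {Z : List Al}
    (h : QQ L0 α β Z) (γ : Al) (hγ : γ = α ∨ γ = β) :
    ∃ X : List Al, QQ L0 α β (Z ++ (γ :: X) ++ Z) := by
  classical
  have hZ : Z ++ [γ] ∈ L0 := by
    rcases hγ with rfl | rfl
    · exact (QQ_mem hF h).1
    · exact (QQ_mem hF h).2
  obtain ⟨N, hN⟩ := hrec _ hZ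
  by_contra hcon
  push Not at hcon
  have hcon' : ∀ X : List Al, ∃ m : ℕ, ∀ r ∈ RS L0 α β, m ≤ r.length →
      ¬ (Z ++ (γ :: X) ++ Z) <:+ r := by
    intro X
    have := hcon X
    unfold QQ at this
    push Not at this
    exact this
  choose f hf using hcon'
  have hfin : {l : List Al | l.length ≤ N}.Finite := List.finite_length_le Al N
  set m := hfin.toFinset.sup f with hm
  obtain ⟨r, hr, hrl, hZr⟩ := h (m + N + Z.length)
  obtain ⟨r', rfl⟩ := hZr
  have hr'l : m + N ≤ r'.length := by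
    simp at hrl
    omega
  have hr' : r' ∈ L0 := hF _ hr.1 _ ⟨[], Z ++ [α], by simp⟩
  set r1 := r'.take (r'.length - N) with hr1
  set r2 := r'.drop (r'.length - N) with hr2
  have h12 : r1 ++ r2 = r' := List.take_append_drop _ _
  have hr2l : r2.length = N := by
    rw [hr2, List.length_drop]
    omega
  have hr2m : r2 ∈ L0 := hF _ hr' _ ⟨r1, [], by simpa using h12⟩
  obtain ⟨s, X, hsX⟩ := hN r2 hr2m hr2l.ge
  have hXl : X.length ≤ N := by
    have := congrArg List.length hsX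
    simp at this
    omega
  refine hf X (r' ++ Z) hr ?_ ?_
  · have : f X ≤ m := Finset.le_sup (f := f) (by simpa using hXl)
    simp
    omega
  · refine ⟨r1 ++ s, ?_⟩
    rw [← h12, ← hsX]
    simp

/-- the words `Z_t` -/
def ZZ (θ : ℕ → List Al) : ℕ → List Al
  | 0 => []
  | t + 1 => ZZ θ t ++ θ t ++ ZZ θ t

lemma exists_theta [Finite Al] {L0 : Set (List Al)} (hF : Fac L0)
    (hrec : ∀ w ∈ L0, ∃ N : ℕ, ∀ x ∈ L0, N ≤ x.length → w <:+: x) {α β : Al}
    (h0 : QQ L0 α β []) (γ : ℕ → Al) (hγ : ∀ t, γ t = α ∨ γ t = β) :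
    ∃ θ : ℕ → List Al, (∀ t, ∃ X, θ t = γ t :: X) ∧ ∀ t, ZZ θ t ∈ L0 := by
  classical
  choose X hX using fun (Z : {Z : List Al // QQ L0 α β Z}) (t : ℕ) =>
    QQ_step hF hrec Z.2 (γ t) (hγ t)
  let F : ℕ → {Z : List Al // QQ L0 α β Z} := fun t =>
    Nat.rec ⟨[], h0⟩ (fun t Z => ⟨Z.1 ++ (γ t :: X Z t) ++ Z.1, hX Z t⟩) t
  let θ : ℕ → List Al := fun t => γ t :: X (F t) t
  have hF' : ∀ t, ZZ θ t = (F t).1 := by
    intro t
    induction t with
    | zero => rfl
    | succ t ih =>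
      simp only [ZZ, ih]
      rfl
  refine ⟨θ, fun t => ⟨_, rfl⟩, fun t => ?_⟩
  rw [hF']
  obtain ⟨h1, -⟩ := QQ_mem hF (F t).2
  exact hF _ h1 _ ⟨[], [α], by simp⟩

end Pool.Agent.Helper51.SG
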