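import Pool.Agent.Helper51.SG.PartA1

/-! The ruler sequence (part A of the proof of S01797). -/

set_option autoImplicit false

namespace Pool.Agent.Helper51.SG

open Pool.Agent.Helper68.SG

variable {Al : Type}

lemma v2_two_pow (t : ℕ) : v2 (2 ^ t) = t := by
  unfold v2
  exact padicValNat.prime_pow t

lemma v2_add (t j : ℕ) (h0 : 1 ≤ j) (h : j < 2 ^ t) : v2 (2 ^ t + j) = v2 j := by
  unfold v2
  have hj : j ≠ 0 := by omega
  have hj' : 2 ^ t + j ≠ 0 := by omega
  have key : ∀ n, n ≤ padicValNat 2 (2 ^ t + j) ↔ n ≤ padicValNat 2 j := by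
    intro n
    rw [← padicValNat_dvd_iff_le hj', ← padicValNat_dvd_iff_le hj]
    rcases le_or_gt n t with hn | hn
    · exact (Nat.dvd_add_right (pow_dvd_pow 2 hn))
    · constructor
      · intro hd
        exfalso
        have h1 : 2 ^ t ∣ 2 ^ t + j := (pow_dvd_pow 2 hn.le).trans hd
        have h2 : 2 ^ t ∣ j := (Nat.dvd_add_right (dvd_refl _)).1 h1
        exact absurd (Nat.le_of_dvd (by omega) h2) (not_le.2 h)
      · intro hd
        exfalso
        have h2 : 2 ^ t ∣ j := (pow_dvd_pow 2 hn.le).trans hd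
        exact absurd (Nat.le_of_dvd (by omega) h2) (not_le.2 h)
  exact le_antisymm ((key _).1 le_rfl) ((key _).2 le_rfl)

lemma ruler_succ (t : ℕ) : (List.range' 1 (2 ^ (t + 1) - 1)).map v2 =
    (List.range' 1 (2 ^ t - 1)).map v2 ++ [t] ++ (List.range' 1 (2 ^ t - 1)).map v2 := by
  have h1 : 1 ≤ 2 ^ t := Nat.one_le_two_pow
  have h2 : 2 ^ (t + 1) - 1 = (2 ^ t - 1) + (1 + (2 ^ t - 1)) := by
    rw [pow_succ]
    omega
  have e1 : List.range' 1 (2 ^ (t + 1) - 1) =
      List.range' 1 (2 ^ t - 1) ++ List.range' (2 ^ t) (1 + (2 ^ t - 1)) := by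
    rw [h2, ← List.range'_append_1]
    congr 2
    omega
  have e2 : List.range' (2 ^ t) (1 + (2 ^ t - 1)) = 2 ^ t :: List.range' (2 ^ t + 1) (2 ^ t - 1) := by
    rw [Nat.add_comm 1, List.range'_succ]
  have e3 : List.range' (2 ^ t + 1) (2 ^ t - 1) = (List.range' 1 (2 ^ t - 1)).map (2 ^ t + ·) := by
    rw [List.map_add_range']
  rw [e1, e2, e3]
  simp only [List.map_append, List.map_cons, List.map_map, v2_two_pow]
  have e4 : List.map (v2 ∘ (2 ^ t + ·)) (List.range' 1 (2 ^ t - 1)) =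
      List.map v2 (List.range' 1 (2 ^ t - 1)) := by
    apply List.map_congr_left
    intro j hj
    rw [List.mem_range'_1] at hj
    exact v2_add t j hj.1 (by omega)
  rw [e4]
  simp

lemma ZZ_eq (θ : ℕ → List Al) (t : ℕ) :
    ZZ θ t = ((List.range' 1 (2 ^ t - 1)).map v2).flatMap θ := by
  induction t with
  | zero => simp [ZZ]
  | succ t ih =>
    rw [ruler_succ]
    simp only [ZZ, ih, List.flatMap_append, List.flatMap_cons, List.flatMap_nil, List.append_nil]

lemma ruler_infix (W : List ℕ) (hW : IsRul W) :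
    ∃ T : ℕ, W <:+: (List.range' 1 (2 ^ T - 1)).map v2 := by
  obtain ⟨t, ht, hWt⟩ := hW
  obtain ⟨T, hT⟩ : ∃ T : ℕ, t + W.length ≤ 2 ^ T := ⟨t + W.length, Nat.lt_two_pow_self.le⟩
  refine ⟨T, ?_⟩
  generalize W.length = n at *
  subst hWt
  have e : 2 ^ T - 1 = (t - 1) + (n + (2 ^ T - 1 - (t - 1) - n)) := by omega
  have e1 : List.range' 1 (2 ^ T - 1) =
      List.range' 1 (t - 1) ++ (List.range' t n ++ List.range' (t + n) (2 ^ T - 1 - (t - 1) - n)) := by
    rw [List.range'_append_1]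
    have h1 : 1 + (t - 1) = t := by omega
    have h2 := @List.range'_append_1 1 (t - 1) (n + (2 ^ T - 1 - (t - 1) - n))
    rw [h1, ← e] at h2
    exact h2.symm
  rw [e1]
  refine ⟨(List.range' 1 (t - 1)).map v2,
    (List.range' (t + n) (2 ^ T - 1 - (t - 1) - n)).map v2, ?_⟩
  rw [List.map_append, List.map_append, List.append_assoc]

lemma flatMap_infix {B : Type} (θ : B → List Al) {W V : List B} (h : W <:+: V) :
    W.flatMap θ <:+: V.flatMap θ := by
  obtain ⟨s, t, rfl⟩ := h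
  exact ⟨s.flatMap θ, t.flatMap θ, by simp⟩

/-- The main statement about factorial languages. -/
theorem lang_main [Finite Al] [LinearOrder Al] {M : Set (List Al)} (hF : Fac M) (hL : Long M)
    (hpow : ∀ y : List Al, y ≠ [] → ∃ k, (List.replicate k y).flatten ∉ M) :
    ∃ α β : Al, α < β ∧ ∀ γ : ℕ → Al, (∀ t, γ t = α ∨ γ t = β) →
      ∃ θ : ℕ → List Al, (∀ t, ∃ X, θ t = γ t :: X) ∧
        ∀ W : List ℕ, IsRul W → W.flatMap θ ∈ M := by
  obtain ⟨L0, h0M, hF0, hL0, hmin⟩ := exists_min hF hL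
  have hrec := recurrence hF0 hmin
  obtain ⟨α, β, hαβ, hRS⟩ := exists_RS hF0 hL0 hrec (fun y hy => by
    obtain ⟨k, hk⟩ := hpow y hy
    exact ⟨k, fun h => hk (h0M h)⟩)
  refine ⟨α, β, hαβ, fun γ hγ => ?_⟩
  have h0 : QQ L0 α β [] := by
    intro m
    obtain ⟨r, hr, hrm⟩ := hRS m
    exact ⟨r, hr, hrm, List.nil_suffix⟩
  obtain ⟨θ, hθ, hZ⟩ := exists_theta hF0 hrec h0 γ hγ
  refine ⟨θ, hθ, fun W hW => h0M ?_⟩
  obtain ⟨T, hT⟩ := ruler_infix W hW
  refine hF0 _ (hZ T) _ ?_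
  rw [ZZ_eq]
  exact flatMap_infix θ hT

end Pool.Agent.Helper51.SG
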